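import Mathlib
import Pool.Agent.W666.DY.Final

/-!
# Dynamical Lehmer problem for polynomials congruent to `X ^ q + c` modulo `p`

Let `f` be a monic integer polynomial of degree `q = p ^ k` with `f ≡ X ^ q + c` modulo `p` (for
example `X ^ p + c` for any integer `c`).  There is a constant `A` such that every wandering `α` in a
number field `K` of degree `D` has canonical height
`ĥ(α) ≥ exp (-(A * (r + 1) * √(1 + log D))) / D`, where `r` is the number of `n` with
`ℚ(f^(n+1)(α)) ≠ ℚ(f^n(α))`; moreover `r ≤ log₂ D`.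
-/

set_option autoImplicit false

open Polynomial IntermediateField Filter Topology Module

namespace Pool.Agent.Results.MP_2194ec_nt.FrobeniusPolynomials

theorem result (p k : ℕ) (hp : p.Prime) (hk : 0 < k) (f : ℤ[X]) (hf : f.Monic)
    (hdeg : f.natDegree = p ^ k) (c : ZMod p)
    (hmod : f.map (Int.castRingHom (ZMod p)) = X ^ (p ^ k) + C c) :
    ∃ A : ℝ, 0 < A ∧ ∀ (K : Type) [Field K] [NumberField K] (α : K),
      (Function.Injective fun n : ℕ => (fun x : K => aeval x f)^[n] α) →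
      ∃ (h : ℝ) (r : ℕ),
        Tendsto (fun n : ℕ => Height.logHeight₁ ((fun x : K => aeval x f)^[n] α) /
          ((finrank ℚ K : ℝ) * (f.natDegree : ℝ) ^ n)) atTop (𝓝 h) ∧
        {n : ℕ | ℚ⟮(fun x : K => aeval x f)^[n + 1] α⟯ ≠
          ℚ⟮(fun x : K => aeval x f)^[n] α⟯}.encard = r ∧
        r ≤ Nat.log 2 (finrank ℚ K) ∧
        Real.exp (-(A * (r + 1) * Real.sqrt (1 + Real.log (finrank ℚ K)))) / finrank ℚ K ≤ h := by
  obtain ⟨A, hA, hmain⟩ := Pool.Agent.W666.DY.final_c hp hk hf hdeg c hmod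
  refine ⟨A, hA, fun K _ _ α hw => ?_⟩
  obtain ⟨h1, h, hlim, hlow⟩ := hmain K α hw
  obtain ⟨hfin, hcard⟩ := Set.encard_le_coe_iff_finite_ncard_le.mp h1
  exact ⟨h, (Pool.Agent.W666.DY.drops f α).ncard, hlim, hfin.cast_ncard_eq.symm, hcard, hlow⟩

end Pool.Agent.Results.MP_2194ec_nt.FrobeniusPolynomials
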