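import Mathlib
import Pool.Agent.W238.Leh.General

/-!
# The dynamical Lehmer inequality outside a small set of points

Let `f` be an endomorphism of degree `d ≥ 2` of projective `N`-space over a number field `K` and
`ε > 0`. There is a constant `C` such that for every finite extension `L` of `K`, of degree `D`,
all points `P` of `P^N(L)` satisfy the Lehmer inequality `ĥ(P) ≥ 1 / (C * D)`, with at most
`C * D ^ (N + ε)` exceptions.
-/

set_option autoImplicit false

namespace Pool.Agent.Results.MP_2194ec_nt.LehmerOutsideSmallSet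

open MvPolynomial NumberField Module Filter Topology

open scoped LinearAlgebra.Projectivization

/-- the map defined by a tuple of forms over `K`, on coordinate vectors over an extension `L` -/
noncomputable def polyMap {K L : Type} [Field K] [Field L] [Algebra K L] {N : ℕ}
    (F : Fin (N + 1) → MvPolynomial (Fin (N + 1)) K) (y : Fin (N + 1) → L) : Fin (N + 1) → L :=
  fun i => aeval y (F i)

/-- the canonical height of a coordinate vector over the number field `L`, for a tuple `F` of forms
of degree `d`: the limit of `h(F^n(x)) / d ^ n`, where `h` is the absolute logarithmic Weil height,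
that is Mathlib's (relative) `Height.logHeight` divided by `[L : ℚ]` -/
noncomputable def canonicalHeight {K L : Type} [Field K] [Field L] [NumberField L] [Algebra K L]
    {N : ℕ} (F : Fin (N + 1) → MvPolynomial (Fin (N + 1)) K) (d : ℕ) (x : Fin (N + 1) → L) : ℝ :=
  limUnder atTop fun n : ℕ =>
    Height.logHeight ((polyMap F)^[n] x) / ((finrank ℚ L : ℝ) * (d : ℝ) ^ n)

/-- **Main result.** The limit defining the canonical height exists, and the inequality of the
conjecture holds outside a set of at most `C * [L : K] ^ (N + ε)` points of `P^N(L)`. -/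
theorem result (K : Type) [Field K] [NumberField K] (N d : ℕ) (hd : 2 ≤ d)
    (F : Fin (N + 1) → MvPolynomial (Fin (N + 1)) K) (hF : ∀ i, (F i).IsHomogeneous d)
    (hmor : ∀ z : Fin (N + 1) → AlgebraicClosure K, (∀ i, aeval z (F i) = 0) → z = 0)
    (ε : ℝ) (hε : 0 < ε) :
    ∃ C : ℝ, 0 < C ∧ ∀ (L : Type) [Field L] [NumberField L] [Algebra K L],
      (∀ x : Fin (N + 1) → L, x ≠ 0 →
        Tendsto (fun n : ℕ => Height.logHeight ((polyMap F)^[n] x) /
          ((finrank ℚ L : ℝ) * (d : ℝ) ^ n)) atTop (𝓝 (canonicalHeight F d x))) ∧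
      {P : ℙ L (Fin (N + 1) → L) | canonicalHeight F d P.rep < 1 / (C * finrank K L)}.Finite ∧
      ({P : ℙ L (Fin (N + 1) → L) |
          canonicalHeight F d P.rep < 1 / (C * finrank K L)}.ncard : ℝ) ≤
        C * (finrank K L : ℝ) ^ ((N : ℝ) + ε) := by
  obtain ⟨C, hC, h⟩ := W238.Leh.general K N d hd F hF hmor ε hε
  refine ⟨C, hC, fun L _ _ _ => ?_⟩
  obtain ⟨h1, h2, h3, _⟩ := h L
  exact ⟨h1, h2, h3⟩

end Pool.Agent.Results.MP_2194ec_nt.LehmerOutsideSmallSet
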