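import Mathlib
import Pool.Agent.W238.Leh.General

/-!
# A lower bound for the canonical height of all wandering points of `P^N`

Let `f` be an endomorphism of degree `d ≥ 2` of projective `N`-space over a number field `K` and
`ε > 0`. There is a constant `C` such that for every finite extension `L` of `K`, of degree `D`,
every wandering point `P` of `P^N(L)` satisfies `ĥ(P) ≥ exp (-(C * D ^ (N + ε)))`.
-/

set_option autoImplicit false

namespace Pool.Agent.Results.MP_2194ec_nt.WanderingLowerBound

open MvPolynomial NumberField Module Filter Topology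

/-- the map defined by a tuple of forms over `K`, on coordinate vectors over an extension `L` -/
noncomputable def polyMap {K L : Type} [Field K] [Field L] [Algebra K L] {N : ℕ}
    (F : Fin (N + 1) → MvPolynomial (Fin (N + 1)) K) (y : Fin (N + 1) → L) : Fin (N + 1) → L :=
  fun i => aeval y (F i)

/-- **Main result.** The canonical height `h` (normalised to be absolute, as in the problem; the
relative height `Height.logHeight` is divided by `[L : ℚ]`) of every wandering point exists and is
at least `exp (-(C * [L : K] ^ (N + ε)))`. -/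
theorem result (K : Type) [Field K] [NumberField K] (N d : ℕ) (hd : 2 ≤ d)
    (F : Fin (N + 1) → MvPolynomial (Fin (N + 1)) K) (hF : ∀ i, (F i).IsHomogeneous d)
    (hmor : ∀ z : Fin (N + 1) → AlgebraicClosure K, (∀ i, aeval z (F i) = 0) → z = 0)
    (ε : ℝ) (hε : 0 < ε) :
    ∃ C : ℝ, 0 < C ∧ ∀ (L : Type) [Field L] [NumberField L] [Algebra K L]
      (x : Fin (N + 1) → L), x ≠ 0 →
        (¬ ∃ m n : ℕ, m ≠ n ∧ ∃ c : L, c ≠ 0 ∧ (polyMap F)^[n] x = c • (polyMap F)^[m] x) →
        ∃ h : ℝ, Tendsto (fun n : ℕ => Height.logHeight ((polyMap F)^[n] x) /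
            ((finrank ℚ L : ℝ) * (d : ℝ) ^ n)) atTop (𝓝 h) ∧
          Real.exp (-(C * (finrank K L : ℝ) ^ ((N : ℝ) + ε))) ≤ h := by
  obtain ⟨C, hC, h⟩ := W238.Leh.general K N d hd F hF hmor ε hε
  refine ⟨C, hC, fun L _ _ _ x hx hw => ?_⟩
  obtain ⟨h1, _, _, h4⟩ := h L
  exact ⟨W238.Leh.canH F d x, h1 x hx, h4 x hx hw⟩

end Pool.Agent.Results.MP_2194ec_nt.WanderingLowerBound
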